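import Mathlib

namespace Pool.Agent.H.MP_10e588_co

variable {V : Type} [DecidableEq V]

/-- Fomin-Zelevinsky mutation at `k`; `B i j` is the number of arrows `i → j` minus the number of
arrows `j → i`. -/
def mu (B : V → V → ℤ) (k : V) : V → V → ℤ := fun i j =>
  if i = k ∨ j = k then -B i j
  else B i j + max (B i k) 0 * max (B k j) 0 - max (-B i k) 0 * max (-B k j) 0

theorem mu_mu (B : V → V → ℤ) (k : V) : mu (mu B k) k = B := by
  funext i j
  by_cases h : i = k ∨ j = k <;> simp [mu, h]

def W (B : V → V → ℤ) (r : V) : Prop := (∀ i j, B j i = -B i j) ∧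
  (∀ i j, i ≠ j → 2 ≤ B i j ∨ 2 ≤ B j i) ∧ ∀ x y z, 0 < B x y → 0 < B y z → 0 < B z x →
    z = r ∧ B y z < B x y ∧ B z x < B x y ∨ x = r ∧ B z x < B y z ∧ B x y < B y z ∨
      y = r ∧ B x y < B z x ∧ B y z < B z x

instance [Fintype V] (B : V → V → ℤ) (r : V) : Decidable (W B r) := by unfold W; infer_instance

variable {B : V → V → ℤ} {r k : V}

theorem W.tri (h : W B r) (i k : V) : i = k ∨ 2 ≤ B i k ∨ 2 ≤ B k i := by
  have := h.2.1 i k
  tauto

omit [DecidableEq V] in
theorem W.ne (h : W B r) {i k : V} (a : 0 < B i k) : i ≠ k := fun e => by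
  have := h.1 k k
  rw [e] at a
  omega

theorem W.l (h : W B r) (k j : V) : mu B k k j = B j k := by simp [mu, h.1 k j]

theorem W.rr (h : W B r) (k j : V) : mu B k j k = B k j := by simp [mu, h.1 j k]

theorem W.io (h : W B r) {i j : V} (a : 0 < B i k) (b : 0 < B k j) :
    mu B k i j = B i j + B i k * B k j := by
  simp [mu, h.ne a, (h.ne b).symm, a.le, b.le]

theorem W.oi (h : W B r) {i j : V} (a : 0 < B k i) (b : 0 < B j k) :
    mu B k i j = B i j - B j k * B k i := by
  simp [mu, h.ne b, (h.ne a).symm, h.1 k i, h.1 j k, a.le, b.le, mul_comm]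

theorem W.ii (h : W B r) {i j : V} (a : 0 < B i k) (b : 0 < B j k) : mu B k i j = B i j := by
  simp [mu, h.ne a, h.ne b, h.1 j k, a.le, b.le]

theorem W.oo (h : W B r) {i j : V} (a : 0 < B k i) (b : 0 < B k j) : mu B k i j = B i j := by
  simp [mu, (h.ne a).symm, (h.ne b).symm, h.1 k i, a.le, b.le]

theorem W.big (h : W B r) (hk : k ≠ r) {i j : V} (a : 0 < B i k) (b : 0 < B k j) :
    B i k < mu B k i j ∧ B k j < mu B k i j := by
  rw [h.io a b]
  have t1 := h.2.1 i k (h.ne a)
  have t2 := h.2.1 k j (h.ne b)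
  have s1 := h.1 i k
  have s2 := h.1 k j
  have s3 := h.1 i j
  have u1 : 2 ≤ B i k := by omega
  have u2 : 2 ≤ B k j := by omega
  by_cases c : 0 < B j i
  · rcases h.2.2 _ _ _ c a b with e | e | e
    · exact absurd e.1 hk
    all_goals constructor <;> nlinarith [e.2.1, e.2.2]
  · constructor <;> nlinarith

def Cyc (B : V → V → ℤ) : Prop := ∃ x y z, 0 < B x y ∧ 0 < B y z ∧ 0 < B z x

theorem W.up (h : W B r) (hk : k ≠ r) {a b : V} (ha : 0 < B a k) (hb : 0 < B k b)
    (h4 : ∀ a b c d e : V, a = b ∨ a = c ∨ a = d ∨ a = e ∨ b = c ∨ b = d ∨ b = e ∨ c = d ∨ c = e ∨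
      d = e) : W (mu B k) k ∧ Cyc (mu B k) ∧
      ∀ m ≠ k, (∃ x, 0 < mu B k x m) ∧ ∃ x, 0 < mu B k m x := by
  have sk : ∀ i j, mu B k j i = -mu B k i j := fun i j => by
    simp only [mu, or_comm (a := j = k), h.1 i j, h.1 k j, h.1 i k, neg_neg]
    split_ifs <;> ring
  have q : ∀ i j, 0 < B i k → 0 < B k j → ¬ 0 < mu B k j i := fun i j x y => by
    have := h.big hk x y
    have := sk i j
    omega
  have p : ∀ x y, 0 < mu B k x y → 0 < mu B k y k → 0 < mu B k k x →
      mu B k y k < mu B k x y ∧ mu B k k x < mu B k x y := fun x y _ u v => by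
    rw [h.rr] at u ⊢
    rw [h.l] at v ⊢
    exact (h.big hk v u).symm
  refine ⟨⟨sk, fun i j ij => ?_, fun x y z u v w => ?_⟩, ⟨a, b, k, ha.trans (h.big hk ha hb).1,
    h.rr k b ▸ hb, h.l k a ▸ ha⟩, fun m hm => ?_⟩
  · have := h.2.1 i j ij
    rcases h.tri i k with rfl | c | c
    · rwa [h.l, h.rr, or_comm]
    all_goals rcases h.tri j k with rfl | d | d
    · rwa [h.l, h.rr, or_comm]
    · rwa [h.ii (by omega) (by omega), h.ii (by omega) (by omega)]
    · exact Or.inl (c.trans (h.big hk (by omega) (by omega)).1.le)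
    · rwa [h.l, h.rr, or_comm]
    · exact Or.inr (d.trans (h.big hk (by omega) (by omega)).1.le)
    · rwa [h.oo (by omega) (by omega), h.oo (by omega) (by omega)]
  · have n : ∀ i j, 0 < mu B k i j → i ≠ j := fun i j c e => by
      have := sk j j
      rw [e] at c
      omega
    have n1 := n _ _ u
    have n2 := n _ _ v
    have n3 := n _ _ w
    by_cases z1 : z = k
    · exact Or.inl ⟨z1, by subst z1; exact p _ _ u v w⟩
    by_cases x1 : x = k
    · exact Or.inr (Or.inl ⟨x1, by subst x1; exact p _ _ v w u⟩)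
    by_cases y1 : y = k
    · exact Or.inr (Or.inr ⟨y1, by subst y1; exact p _ _ w u v⟩)
    have t : ∀ v, v ≠ k → 0 < B v k ∨ 0 < B k v := fun v e => by
      have := h.2.1 v k e
      omega
    have io : ∀ v w, 0 < B v k → 0 < B k w → v ≠ w := fun v w c d e => by
      have := h.1 v k
      rw [← e] at d
      omega
    have := q x z
    have := q y x
    have := q z y
    have := h4 x y z k a
    have := h4 x y z k b
    have := h.ne ha
    have := h.ne hb
    have := io x b
    have := io y b
    have := io z b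
    have := io a x
    have := io a y
    have := io a z
    have := t x x1
    have := t y y1
    have := t z z1
    grind
  · rcases h.tri m k with e | c | c
    · exact absurd e hm
    · exact ⟨⟨k, by rw [h.l]; omega⟩, b, by have := h.big hk (i := m) (by omega) hb; omega⟩
    · exact ⟨⟨a, by have := h.big hk (j := m) ha (by omega); omega⟩, k, by rw [h.rr]; omega⟩

variable {F : Type}

def G (c : V → F → ℤ) (i : V) : Prop := ∀ f, 0 ≤ c i f

def Inv (B : V → V → ℤ) (c : V → F → ℤ) (r : V) : Prop := W B r ∧ (∀ i, ∃ f, c i f ≠ 0) ∧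
  (∀ i j, ¬ G c i → G c j → 0 < B i j → ∀ f, 0 ≤ c i f + c j f) ∧
  (∀ i j, ¬ G c i → ¬ G c j → G c r → 0 < B i j → 0 < B j r → 0 < B r i → ∀ f, 0 ≤ c i f + c r f) ∧
  ∃ T : Set V, T.Nonempty ∧ ∀ j ∈ T, G c j ∧ ∃ i, 0 < B i j ∧ (i ∈ T ∨ ¬ G c i)

theorem Inv.step {c c' : V → F → ℤ} {s : V} (h : Inv B c s) (g : G c k) (w : W (mu B k) r)
    (e : ∀ i f, c' i f = if i = k then -c k f else c i f + max (B i k) 0 * c k f) :
    Inv (mu B k) c' r := by
  obtain ⟨h, h0, h1, h2, T, hT, h3⟩ := h
  have ek : ∀ f, c' k f = -c k f := fun f => by simp [e]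
  have rk : ¬ G c' k := fun a => by
    obtain ⟨f, b⟩ := h0 k
    have := a f
    have := g f
    rw [ek] at *
    omega
  have eo : ∀ i, i ≠ k → B i k ≤ 0 → c' i = c i := fun i a b => funext fun f => by simp [e, a, b]
  have eo' : ∀ i, 0 < B k i → c' i = c i := fun i a =>
    eo i (h.ne a).symm (by have := h.1 k i; omega)
  have go : ∀ i, 0 < B k i → (G c' i ↔ G c i) := fun i a => by rw [G, eo' i a, G]
  have ei : ∀ i f, 0 < B i k → c k f ≤ c' i f ∧ c i f ≤ c' i f := fun i f a => by
    have := h.2.1 i k (h.ne a)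
    have := h.1 i k
    have u : 2 ≤ B i k := by omega
    have := g f
    have : 0 ≤ c i f + c k f := by
      by_cases b : G c i
      exacts [add_nonneg (b f) (g f), h1 i k b g a f]
    rw [e, if_neg (h.ne a), max_eq_left a.le]
    constructor <;> nlinarith
  have gi : ∀ i, 0 < B i k → G c' i := fun i a f => (g f).trans (ei i f a).1
  have t : ∀ v, v = k ∨ 0 < B v k ∨ 0 < B k v := fun v => by
    have := h.tri v k
    grind
  have ro : ∀ i, i ≠ k → ¬ G c' i → 0 < B k i := fun i a b => by
    have := t i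
    have := gi i
    tauto
  refine ⟨w, fun i => ?_, fun i j a b d f => ?_, fun i j a b d u v x f => ?_, ?_⟩
  · obtain ⟨f, b⟩ := h0 k
    rcases t i with rfl | a | a
    · exact ⟨f, by rw [ek]; omega⟩
    · exact ⟨f, by have := (ei i f a).1; have := g f; omega⟩
    · exact eo' i a ▸ h0 i
  · by_cases ik : i = k
    · subst ik
      rw [h.l] at d
      have := (ei j f d).1
      rw [ek]
      omega
    have o := ro i ik a
    rw [go i o] at a
    rw [eo' i o]
    rcases t j with rfl | y | y
    · exact absurd b rk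
    · rw [h.oi o y] at d
      have p := mul_pos y o
      have := ei j f y
      by_cases z : G c j
      · have := h1 i j a z (by omega) f
        omega
      · rcases h.2.2 i j k (by omega) y o with q | q | q
        · have := h2 i j a z (q.1 ▸ g) (by omega) (q.1 ▸ y) (q.1 ▸ o) f
          rw [← q.1] at this
          omega
        all_goals nlinarith [q.2.1, q.2.2]
    · rw [h.oo o y] at d
      rw [eo' j y]
      exact h1 i j a ((go j y).1 b) d f
  · have rk' : r ≠ k := fun z => rk (z ▸ d)
    have ik : i ≠ k := fun z => b (gi j (by rwa [z, h.l] at u))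
    have o := ro i ik a
    rw [go i o] at a
    rw [eo' i o]
    rcases t r with y | y | y
    · exact absurd y rk'
    · have := ei r f y
      have n : ¬ B k i < mu B k r i := fun z => by
        rcases w.2.2 i k r (by rwa [h.rr]) (by rwa [h.l]) x with q | q | q
        · rw [h.rr] at q
          omega
        · exact w.ne x q.1.symm
        · exact rk' q.1.symm
      rw [h.io y o] at n x
      have := h.1 i r
      have := h.2.1 r k rk'
      have := h.1 r k
      have u : 2 ≤ B r k := by omega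
      have z : 0 < B i r := by nlinarith
      by_cases l : G c r
      · have := h1 i r a l z f
        omega
      · rcases h.2.2 i r k z y o with q | q | q
        · have := h2 i r a l (q.1 ▸ g) z (q.1 ▸ y) (q.1 ▸ o) f
          rw [← q.1] at this
          omega
        · have := h.2.1 k i (h.ne o)
          have := h.1 k i
          have : 2 ≤ B k i := by omega
          nlinarith [q.2.1, q.2.2]
        · nlinarith [q.2.1, q.2.2]
    · have jk : j ≠ k := fun z => by
        rw [z, h.l] at v
        have := h.1 k r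
        omega
      have p := ro j jk b
      have q := w.2.2 i j r u v x
      rw [h.oo o p] at u q
      rw [h.oo p y] at v q
      rw [h.oo y o] at x q
      have := h.ne v
      have := h.ne x
      have : r = s := by
        have := h.2.2 i j r u v x
        grind
      subst this
      rw [eo' r y]
      exact h2 i j a (mt (go j p).2 b) ((go r y).1 d) u v x f
  · by_cases z : ∃ i, 0 < B i k
    · obtain ⟨i, a⟩ := z
      exact ⟨{i}, by simp, by rintro _ rfl; exact ⟨gi _ a, k, by rwa [h.l], Or.inr rk⟩⟩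
    have kT : k ∉ T := fun a => z ((h3 k a).2.imp fun _ b => b.1)
    have o : ∀ i, i ≠ k → 0 < B k i := fun i a => by
      have := t i
      grind
    refine ⟨T, hT, fun j a => ?_⟩
    obtain ⟨b, i, d, u⟩ := h3 j a
    have p := o j fun z => kT (z ▸ a)
    have q := o i fun z => by
      rw [z] at u
      tauto
    exact ⟨(go j p).2 b, i, by rwa [h.oo q p], by rwa [go i q]⟩

inductive K (S : List (V → V → ℤ)) : (V → V → ℤ) → Prop
  | core {A : V → V → ℤ} : A ∈ S → K S A
  | up {A : V → V → ℤ} {s m a b : V} : K S A → W A s → m ≠ s → 0 < A a m → 0 < A m b →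
      K S (mu A m)

theorem K.step {S : List (V → V → ℤ)} (h4 : ∀ a b c d e : V, a = b ∨ a = c ∨ a = d ∨ a = e ∨ b = c ∨
      b = d ∨ b = e ∨ c = d ∨ c = e ∨ d = e) (hS : ∀ B ∈ S, (∃ r, W B r) ∧ ∀ k, mu B k ∈ S ∨
      ∃ r a b, W B r ∧ k ≠ r ∧ 0 < B a k ∧ 0 < B k b) (h : K S B) :
    (∃ r, W B r) ∧ (B ∈ S ∨ Cyc B) ∧ ∀ m, K S (mu B m) := by
  cases h with
  | core a =>
    refine ⟨(hS B a).1, Or.inl a, fun m => ?_⟩
    rcases (hS B a).2 m with b | ⟨r, x, y, b, c, d, e⟩
    exacts [.core b, .up (.core a) b c d e]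
  | @up A r k x y a b c d e =>
    obtain ⟨u, v, w⟩ := b.up c d e h4
    refine ⟨⟨k, u⟩, Or.inr v, fun m => ?_⟩
    by_cases z : m = k
    · rwa [z, mu_mu]
    · obtain ⟨⟨_, p⟩, _, q⟩ := w m z
      exact .up (.up a b c d e) u z p q

end Pool.Agent.H.MP_10e588_co
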